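import Mathlib
import Pool.Agent.ExtStar.Reduce
import Pool.Agent.ExtStar.Exist3

/-!
# Exterior-star domains have exactly one positive bounded steady state

Answer (yes) to Q1 of `MP_0f8a1e_an`, in a stronger form: reactions that are only `C¹` and domains
that are only uniformly Lipschitz.
-/

set_option autoImplicit false

open MeasureTheory Metric Set Filter Topology
open scoped Laplacian

namespace Pool.Agent.Results.MP_0f8a1e_an.ExteriorStarUnique

/-- Euclidean space of dimension `n + 1`. -/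
abbrev Eu (n : ℕ) := EuclideanSpace ℝ (Fin (n + 1))

/-- A positive reaction which is only `C¹` on `[0, ∞)`: `f(0) = f(1) = 0`, `f > 0` on `(0, 1)`,
`f < 0` on `(1, ∞)`, `f'(0⁺) > 0`, `f'(1) < 0`.  Only the values of `f` on `[0, ∞)` matter. -/
structure PosReaction (f : ℝ → ℝ) : Prop where
  smooth : ContDiffOn ℝ 1 f (Ici 0)
  at_zero : f 0 = 0
  at_one : f 1 = 0
  pos : ∀ t : ℝ, 0 < t → t < 1 → 0 < f t
  neg : ∀ t : ℝ, 1 < t → f t < 0
  deriv_zero : 0 < derivWithin f (Ici 0) 0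
  deriv_one : derivWithin f (Ici 0) 1 < 0

/-- In the coordinates given by the rigid motion `T`, the set `Ω` is inside the ball `B(x, r)` the
region above the graph of `φ` (the last coordinate is the vertical one). -/
def GraphChart {n : ℕ} (Ω : Set (Eu n)) (x : Eu n) (r : ℝ) (T : Eu n ≃ᵃⁱ[ℝ] Eu n)
    (φ : EuclideanSpace ℝ (Fin n) → ℝ) : Prop :=
  ∀ z ∈ ball x r, (z ∈ Ω ↔ φ (WithLp.toLp 2 fun i => T z (Fin.castSucc i)) < T z (Fin.last n))

/-- Uniformly Lipschitz: near every boundary point, on a ball of uniform radius, `Ω` is the region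
above the graph of a function with a uniform Lipschitz constant, in suitable orthonormal
coordinates. -/
def UniformlyLipschitz {n : ℕ} (Ω : Set (Eu n)) : Prop :=
  ∃ r : ℝ, 0 < r ∧ ∃ L : NNReal, ∀ x ∈ frontier Ω, ∃ (T : Eu n ≃ᵃⁱ[ℝ] Eu n)
    (φ : EuclideanSpace ℝ (Fin n) → ℝ), LipschitzWith L φ ∧ GraphChart Ω x r T φ

/-- Uniformly `C^{2,γ}` (the domains of the problem): the same with `φ` of class `C²` and `φ`, `Dφ`,
`D²φ` and the `γ`-Hölder quotient of `D²φ` bounded by a uniform constant.  Not used in `result`. -/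
def UniformlyC2Holder {n : ℕ} (γ : ℝ) (Ω : Set (Eu n)) : Prop :=
  ∃ r : ℝ, 0 < r ∧ ∃ M : ℝ, ∀ x ∈ frontier Ω, ∃ (T : Eu n ≃ᵃⁱ[ℝ] Eu n)
    (φ : EuclideanSpace ℝ (Fin n) → ℝ), ContDiff ℝ 2 φ ∧ (∀ y, |φ y| ≤ M) ∧
      (∀ y, ‖fderiv ℝ φ y‖ ≤ M) ∧ (∀ y, ‖iteratedFDeriv ℝ 2 φ y‖ ≤ M) ∧
      (∀ y z, ‖iteratedFDeriv ℝ 2 φ y - iteratedFDeriv ℝ 2 φ z‖ ≤ M * ‖y - z‖ ^ γ) ∧
      GraphChart Ω x r T φ

/-- Exterior-star: the complement is star-shaped about one of the points of the space. -/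
def ExteriorStar {n : ℕ} (Ω : Set (Eu n)) : Prop := ∃ x₀ : Eu n, StarConvex ℝ x₀ Ωᶜ

/-- Positive bounded solution of `-Δu = f(u)` in `Ω`, `u = 0` on `∂Ω`, in the class
`C²(Ω) ∩ C(closure Ω)`. -/
structure PosBddSol {n : ℕ} (f : ℝ → ℝ) (Ω : Set (Eu n)) (u : Eu n → ℝ) : Prop where
  smooth : ContDiffOn ℝ 2 u Ω
  cont : ContinuousOn u (closure Ω)
  bdd : ∃ C : ℝ, ∀ x ∈ Ω, |u x| ≤ C
  eq : ∀ x ∈ Ω, -(Δ u) x = f (u x)
  zero : ∀ x ∈ frontier Ω, u x = 0
  pos : ∀ x ∈ Ω, 0 < u x

/-- (E) has exactly one positive bounded solution (as a function on `closure Ω`). -/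
def ExactlyOne {n : ℕ} (f : ℝ → ℝ) (Ω : Set (Eu n)) : Prop :=
  ∃ u : Eu n → ℝ, PosBddSol f Ω u ∧ ∀ v : Eu n → ℝ, PosBddSol f Ω v → EqOn v u (closure Ω)

/-- a `C¹` function on the half line extends to a `C¹` function on the line -/
lemma exists_ext {f : ℝ → ℝ} (hf : ContDiffOn ℝ 1 f (Ici 0)) (h0 : f 0 = 0) :
    ∃ g : ℝ → ℝ, ContDiff ℝ 1 g ∧ (∀ t, 0 ≤ t → g t = f t) ∧
      deriv g 0 = derivWithin f (Ici 0) 0 ∧ deriv g 1 = derivWithin f (Ici 0) 1 := by
  have hcd : ContinuousOn (derivWithin f (Ici 0)) (Ici 0) :=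
    hf.continuousOn_derivWithin (uniqueDiffOn_Ici 0) le_rfl
  set h : ℝ → ℝ := fun s => derivWithin f (Ici 0) |s| with hh
  have hc : Continuous h := hcd.comp_continuous continuous_abs fun s => abs_nonneg s
  set g : ℝ → ℝ := fun t => ∫ s in (0:ℝ)..t, h s with hg
  have hgd : ∀ t, HasDerivAt g (h t) t := fun t => (hc.integral_hasStrictDerivAt 0 t).hasDerivAt
  have hgd' : deriv g = h := by
    ext t; exact (hgd t).deriv
  refine ⟨g, ?_, ?_, ?_, ?_⟩
  · rw [contDiff_one_iff_deriv]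
    exact ⟨fun t => (hgd t).differentiableAt, by rw [hgd']; exact hc⟩
  · intro t ht
    have h1 : ∫ s in (0:ℝ)..t, h s = f t - f 0 := by
      refine intervalIntegral.integral_eq_sub_of_hasDerivAt_of_le ht
        (hf.continuousOn.mono Icc_subset_Ici_self) (fun x hx => ?_) (hc.intervalIntegrable _ _)
      have h2 := ((hf.differentiableOn (by norm_num)) x hx.1.le).hasDerivWithinAt
      have h3 := h2.hasDerivAt (Ici_mem_nhds hx.1)
      rw [hh]
      simpa [abs_of_pos hx.1] using h3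
    rw [hg]
    show ∫ s in (0:ℝ)..t, h s = f t
    rw [h1, h0, sub_zero]
  · rw [hgd']; simp [hh]
  · rw [hgd']; simp [hh]

lemma laplacian_eq {n : ℕ} (u : Eu n → ℝ) (x : Eu n) :
    (Δ u) x = ∑ i : Fin (n + 1),
      iteratedFDeriv ℝ 2 u x (fun _ => EuclideanSpace.single i (1 : ℝ)) := by
  rw [InnerProductSpace.laplacian_eq_iteratedFDeriv_orthonormalBasis u
    (EuclideanSpace.basisFun (Fin (n + 1)) ℝ)]
  refine Finset.sum_congr rfl fun i _ => ?_
  congr 1
  ext j : 1
  fin_cases j <;> simp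

lemma PosBddSol.toClass {n : ℕ} {f g : ℝ → ℝ} {Ω : Set (Eu n)} {u : Eu n → ℝ}
    (hg : ∀ t, 0 ≤ t → g t = f t) (h : PosBddSol f Ω u) : ExtStar.ClassSol g Ω u := by
  refine ⟨h.smooth, h.cont, h.bdd, fun x hx => ?_, h.zero, h.pos⟩
  rw [← laplacian_eq, hg _ (h.pos x hx).le]
  exact h.eq x hx

lemma PosBddSol.ofClass {n : ℕ} {f g : ℝ → ℝ} {Ω : Set (Eu n)} {u : Eu n → ℝ}
    (hg : ∀ t, 0 ≤ t → g t = f t) (h : ExtStar.ClassSol g Ω u) : PosBddSol f Ω u := by
  obtain ⟨h1, h2, h3, h4, h5, h6⟩ := h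
  refine ⟨h1, h2, h3, fun x hx => ?_, h5, h6⟩
  rw [← hg _ (h6 x hx).le, laplacian_eq]
  exact h4 x hx

/-- uniformly Lipschitz domains have the charts used in the modules `ExtStar` -/
lemma lipDom {n : ℕ} {Ω : Set (Eu n)} (hΩ : IsOpen Ω) {r : ℝ} (hr : 0 < r) {L : NNReal}
    (h : ∀ x ∈ frontier Ω, ∃ (T : Eu n ≃ᵃⁱ[ℝ] Eu n)
      (φ : EuclideanSpace ℝ (Fin n) → ℝ), LipschitzWith L φ ∧ GraphChart Ω x r T φ) :
    ExtStar.LipDom Ω r (1 + L) where
  hr := hr
  hΛ := by have := L.2; linarith [show (0:ℝ) ≤ (L : ℝ) from this]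
  isOpen := hΩ
  chart := by
    intro y hy
    obtain ⟨R, φ, hφ, hz⟩ := h y hy
    set T : Eu n → EuclideanSpace ℝ (Fin n) := fun z => WithLp.toLp 2 fun i => R z (Fin.castSucc i)
      with hT
    have hsq : ∀ z z', ∑ i, (R z i - R z' i) ^ 2 = dist z z' ^ 2 := by
      intro z z'
      rw [← R.dist_map z z', EuclideanSpace.dist_eq, Real.sq_sqrt (by positivity)]
      refine Finset.sum_congr rfl fun i _ => ?_
      rw [Real.dist_eq, sq_abs]
    have hTd : ∀ z z', dist (T z) (T z') ≤ dist z z' := by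
      intro z z'
      rw [EuclideanSpace.dist_eq]
      refine Real.sqrt_le_iff.2 ⟨dist_nonneg, ?_⟩
      rw [← hsq, Fin.sum_univ_castSucc]
      have h1 : ∑ i, dist ((T z) i) ((T z') i) ^ 2 =
          ∑ i : Fin n, (R z (Fin.castSucc i) - R z' (Fin.castSucc i)) ^ 2 := by
        refine Finset.sum_congr rfl fun i _ => ?_
        rw [Real.dist_eq, sq_abs]
      rw [h1]
      nlinarith [sq_nonneg (R z (Fin.last n) - R z' (Fin.last n))]
    have hLast : ∀ z z', |R z (Fin.last n) - R z' (Fin.last n)| ≤ dist z z' := by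
      intro z z'
      refine abs_le_of_sq_le_sq ?_ dist_nonneg
      rw [← hsq]
      exact Finset.single_le_sum (f := fun i => (R z i - R z' i) ^ 2)
        (fun i _ => sq_nonneg _) (Finset.mem_univ (Fin.last n))
    have hφL : ∀ a b, |φ a - φ b| ≤ L * dist a b := by
      intro a b
      have := hφ.dist_le_mul a b
      rwa [Real.dist_eq] at this
    set g : Eu n → ℝ := fun z => R z (Fin.last n) - φ (T z) with hg
    have hgL : ∀ z z', |g z - g z'| ≤ (1 + L) * dist z z' := by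
      intro z z'
      have h1 := hLast z z'
      have h2 := (hφL (T z) (T z')).trans (mul_le_mul_of_nonneg_left (hTd z z') L.2)
      have e : g z - g z' = (R z (Fin.last n) - R z' (Fin.last n)) -
        (φ (T z) - φ (T z')) := by rw [hg]; ring
      rw [e]
      refine (abs_sub _ _).trans ?_
      linarith
    have hgc : Continuous g := by
      have : LipschitzWith (1 + L) g := by
        refine LipschitzWith.of_dist_le_mul fun a b => ?_
        rw [Real.dist_eq]
        exact_mod_cast hgL a b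
      exact this.continuous
    have hzg : ∀ z ∈ ball y r, (z ∈ Ω ↔ 0 < g z) := by
      intro z hzb
      rw [hz z hzb, hg]
      exact sub_pos.symm
    have hlin : ∀ (z : Eu n) (t : ℝ), R (z + t • R.linearIsometryEquiv.symm
        (EuclideanSpace.single (Fin.last n) 1)) =
        R z + t • EuclideanSpace.single (Fin.last n) 1 := by
      intro z t
      have h1 := R.map_vadd z (t • R.linearIsometryEquiv.symm
        (EuclideanSpace.single (Fin.last n) 1))
      rw [vadd_eq_add, vadd_eq_add, map_smul, LinearIsometryEquiv.apply_symm_apply] at h1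
      rw [add_comm z, h1, add_comm]
    refine ⟨R.linearIsometryEquiv.symm (EuclideanSpace.single (Fin.last n) 1), g, ?_, hgL, ?_, ?_,
      hzg⟩
    · rw [LinearIsometryEquiv.norm_map]; simp
    · intro z t
      have e := hlin z t
      have e1 : T (z + t • R.linearIsometryEquiv.symm
          (EuclideanSpace.single (Fin.last n) 1)) = T z := by
        ext i
        simp only [hT]
        rw [e]
        simp [Fin.castSucc_ne_last]
      simp only [hg]
      rw [e1, e]
      simp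
      ring
    · -- g y = 0
      have hyΩ : y ∉ Ω := by rw [hΩ.frontier_eq] at hy; exact hy.2
      have hyc : y ∈ closure Ω := by rw [hΩ.frontier_eq] at hy; exact hy.1
      have h1 : g y ≤ 0 := by
        by_contra hn
        exact hyΩ ((hzg y (mem_ball_self hr)).2 (not_le.1 hn))
      have h2 : 0 ≤ g y := by
        by_contra hn
        rw [not_le] at hn
        have h3 : ∀ᶠ z in 𝓝 y, g z < 0 := (hgc.tendsto y).eventually_lt_const hn
        have h4 : ∀ᶠ z in 𝓝 y, z ∈ ball y r := isOpen_ball.mem_nhds (mem_ball_self hr)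
        obtain ⟨z, hzΩ, hz1, hz2⟩ :=
          ((mem_closure_iff_frequently.1 hyc).and_eventually (h3.and h4)).exists
        have := (hzg z hz2).1 hzΩ
        linarith
      linarith

/-- the general theorem -/
lemma exactlyOne {n : ℕ} {f : ℝ → ℝ} (hf : PosReaction f) {Ω : Set (Eu n)} (hΩ : IsOpen Ω)
    (hconn : IsConnected Ω) (hlip : UniformlyLipschitz Ω) (hstar : ExteriorStar Ω) :
    ExactlyOne f Ω := by
  obtain ⟨g, hgs, hgf, hg0, hg1⟩ := exists_ext hf.smooth hf.at_zero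
  have hgneg : ∀ t : ℝ, 1 < t → g t < 0 := fun t ht => by
    rw [hgf t (by linarith)]; exact hf.neg t ht
  have hgpos : ∀ t : ℝ, 0 < t → t < 1 → 0 < g t := fun t ht ht1 => by
    rw [hgf t ht.le]; exact hf.pos t ht ht1
  obtain ⟨R, hR⟩ := ExtStar.exists_RD g hgs (by rw [hgf 0 le_rfl, hf.at_zero])
    (by rw [hgf 1 zero_le_one, hf.at_one]) (by rw [hg1]; exact hf.deriv_one) hgpos
    (by rw [hg0]; exact hf.deriv_zero)
  obtain ⟨r, hr, L, hL⟩ := hlip
  obtain ⟨x₀, hx₀⟩ := hstar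
  have hLD := lipDom hΩ hr hL
  have hs : ExtStar.Star x₀ Ω := ExtStar.star_of_starConvex hx₀
  subst hR
  have huniq : ∀ u v : Eu n → ℝ, ExtStar.ClassSol R.f Ω u →
      ExtStar.ClassSol R.f Ω v → ∀ x ∈ Ω, u x ≤ v x := by
    intro u v hu hv x hx
    have h := ExtStar.uniqueness R hLD hs (hu.toSol R hgneg hΩ) (hv.toSol R hgneg hΩ) x
    rwa [Set.indicator_of_mem hx, Set.indicator_of_mem hx] at h
  obtain ⟨u, hu⟩ := ExtStar.exists_sol R hgs hLD hs hconn.nonempty hconn.isPreconnected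
  have huc := hu.toClassSol hΩ
  refine ⟨u, PosBddSol.ofClass hgf huc, fun v hv x hx => ?_⟩
  have hvc := hv.toClass hgf
  by_cases hxΩ : x ∈ Ω
  · exact le_antisymm (huniq v u hvc huc x hxΩ) (huniq u v huc hvc x hxΩ)
  · have hxf : x ∈ frontier Ω := by rw [hΩ.frontier_eq]; exact ⟨hx, hxΩ⟩
    rw [huc.2.2.2.2.1 x hxf, hv.zero x hxf]

/-- uniformly `C^{2,γ}` domains are uniformly Lipschitz -/
lemma UniformlyC2Holder.lip {n : ℕ} {γ : ℝ} {Ω : Set (Eu n)} (h : UniformlyC2Holder γ Ω) :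
    UniformlyLipschitz Ω := by
  obtain ⟨r, hr, M, hM⟩ := h
  refine ⟨r, hr, M.toNNReal, fun x hx => ?_⟩
  obtain ⟨T, φ, h1, h2, h3, -, -, h6⟩ := hM x hx
  refine ⟨T, φ, ?_, h6⟩
  have hM0 : 0 ≤ M := (abs_nonneg _).trans (h2 0)
  refine lipschitzWith_of_nnnorm_fderiv_le (h1.differentiable (by norm_num)) fun y => ?_
  rw [← NNReal.coe_le_coe, Real.coe_toNNReal _ hM0]
  exact h3 y

/-- **Uniqueness (and existence) on exterior-star domains.**  In every dimension `n + 1 ≥ 1`, for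
every positive reaction `f` that is `C¹` on `[0, ∞)` and every open, nonempty, connected, uniformly
Lipschitz domain whose complement is star-shaped, (E) has exactly one positive bounded solution.
The domains of Q1 are included by `UniformlyC2Holder.lip`, the reactions of Q1 are `C^{1,γ}`. -/
theorem result (n : ℕ) (f : ℝ → ℝ) (hf : PosReaction f) (Ω : Set (Eu n)) (hΩ : IsOpen Ω)
    (hconn : IsConnected Ω) (hlip : UniformlyLipschitz Ω) (hstar : ExteriorStar Ω) :
    ExactlyOne f Ω :=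
  exactlyOne hf hΩ hconn hlip hstar

end Pool.Agent.Results.MP_0f8a1e_an.ExteriorStarUnique
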